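import Pool.Agent.Q7.GL.Cubic

/-!
# `E_0^*(IA_3)` is not a free Lie algebra modulo quadratic relations

All definitions used in the statement are in `Pool.Agent.Q7.GL.Basic` (`Gam`, `gr`, `E0`),
`Pool.Agent.Q7.GL.Quad` (`FL`, `FL.deg2`, `natMap`, `QuadPres`) and `Pool.Agent.Q7.GL.Magnus`
(`IA`).
-/

set_option autoImplicit false

namespace Pool.Agent.Results.MP_df4ecf_al.IAThreeCubic

open Pool.Agent.Q7.GL

/-- The kernel of `L[V] → E_0^*(IA_3)`, `V = IA_3 / [IA_3, IA_3]`, is not generated as a Lie ideal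
by its degree-two part. -/
theorem result : ¬ QuadPres (IA 3) := not_quadPres

end Pool.Agent.Results.MP_df4ecf_al.IAThreeCubic
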